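import Pool.Agent.N812.BA.La

/-!
# The densities of the functionals, `L^{q'}` bounds
-/

set_option autoImplicit false

namespace Pool.Agent.N812.BA

open MeasureTheory Set Metric Filter Topology
open Pool.Agent.N812.IS
open Pool.Agent.Y271.RO (Bd)
open scoped InnerProductSpace ENNReal NNReal BoundedContinuousFunction ComplexConjugate

section

variable {E : Type} [NormedAddCommGroup E] [NormedSpace ℂ E] {S : Set ℂ} {N : E →L[ℂ] E}
  {A : C(S, ℂ) →ₗ[ℂ] E} {q C : ℝ} [IsFiniteMeasure (volume.restrict S)]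
  [Fact (1 ≤ ENNReal.ofReal q)] [CompleteSpace E]

/-- the density of a functional -/
noncomputable def rho (hO : Orb S N A q C) (hq : 1 < q) (φ : E →L[ℂ] ℂ) : ℂ → ℂ :=
  (fct_rep (lam_fct hO hq φ)).choose

lemma rho_meas (hO : Orb S N A q C) (hq : 1 < q) (φ : E →L[ℂ] ℂ) : Measurable (rho hO hq φ) :=
  (fct_rep (lam_fct hO hq φ)).choose_spec.1

lemma rho_rep (hO : Orb S N A q C) (hq : 1 < q) (φ : E →L[ℂ] ℂ) (a : ℂ) (r B : ℝ) (g : ℂ → ℂ)
    (hg : Bd g a r B) : Integrable (fun z => g z * rho hO hq φ z) ∧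
      φ (lam A q g) = ∫ z, g z * rho hO hq φ z :=
  (fct_rep (lam_fct hO hq φ)).choose_spec.2 a r B g hg

/-- the duality -/
theorem rho_part (hO : Orb S N A q C) (hq : 1 < q) (φ : E →L[ℂ] ℂ) (n : ℕ) :
    ∫⁻ z in {z | ‖rho hO hq φ z‖ ≤ n} ∩ ball 0 n,
      ENNReal.ofReal (‖rho hO hq φ z‖ ^ (q / (q - 1))) ≤
      ENNReal.ofReal ((C * ‖φ‖) ^ (q / (q - 1))) := by
  set ρ : ℂ → ℂ := rho hO hq φ with hρ
  have hρm : Measurable ρ := rho_meas hO hq φ
  have hq0 : 0 < q - 1 := by linarith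
  set s : ℝ := q / (q - 1) with hs
  have hs1 : 1 < s := by
    rw [hs, lt_div_iff₀ hq0]
    linarith
  have hsq : (s - 1) * q = s := by
    rw [hs]
    field_simp
    ring
  set P : Set ℂ := {z | ‖ρ z‖ ≤ n} ∩ ball 0 n with hP
  have hPm : MeasurableSet P := (measurableSet_le hρm.norm measurable_const).inter
    measurableSet_ball
  have hPf : volume P ≠ ⊤ := ne_top_of_le_ne_top measure_ball_lt_top.ne
    (measure_mono (inter_subset_right))
  set g : ℂ → ℂ := P.indicator fun z => conj (ρ z) * ((‖ρ z‖ ^ (s - 2) : ℝ) : ℂ) with hg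
  have hgm : Measurable g := by
    refine Measurable.indicator ?_ hPm
    exact (Complex.continuous_conj.measurable.comp hρm).mul
      (Complex.measurable_ofReal.comp (hρm.norm.pow_const _))
  have hgn : ∀ z ∈ P, ‖g z‖ = ‖ρ z‖ ^ (s - 1) := by
    intro z hz
    rw [hg, indicator_of_mem hz, norm_mul, RCLike.norm_conj, Complex.norm_real,
      Real.norm_of_nonneg (Real.rpow_nonneg (norm_nonneg _) _)]
    rcases (norm_nonneg (ρ z)).eq_or_lt with h0 | h0
    · rw [← h0, zero_mul, Real.zero_rpow (by linarith)]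
    · rw [← Real.rpow_one_add' (norm_nonneg _) (by linarith)]
      congr 1
      ring
  have hg0 : ∀ z, z ∉ P → g z = 0 := fun z hz => indicator_of_notMem hz _
  have hgρ : ∀ z, g z * ρ z = ((P.indicator (fun z => ‖ρ z‖ ^ s) z : ℝ) : ℂ) := by
    intro z
    by_cases hz : z ∈ P
    · rw [hg, indicator_of_mem hz, indicator_of_mem hz]
      have h1 : conj (ρ z) * ((‖ρ z‖ ^ (s - 2) : ℝ) : ℂ) * ρ z =
          ((‖ρ z‖ ^ 2 * ‖ρ z‖ ^ (s - 2) : ℝ) : ℂ) := by
        rw [mul_right_comm, Complex.conj_mul']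
        push_cast
        rfl
      rw [h1]
      congr 1
      rcases (norm_nonneg (ρ z)).eq_or_lt with h0 | h0
      · rw [← h0, Real.zero_rpow (by linarith : s ≠ 0)]
        simp
      · rw [← Real.rpow_natCast, ← Real.rpow_add h0]
        congr 1
        push_cast
        ring
    · rw [hg0 z hz, indicator_of_notMem hz, zero_mul, Complex.ofReal_zero]
  have hBd : Bd g 0 n ((n : ℝ) ^ (s - 1)) := by
    refine ⟨hgm, by positivity, fun z => ?_, fun z hz => hg0 z fun h => hz h.2⟩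
    by_cases hz : z ∈ P
    · rw [hgn z hz]
      exact Real.rpow_le_rpow (norm_nonneg _) hz.1 (by linarith)
    · rw [hg0 z hz, norm_zero]
      positivity
  -- the integral
  have hI : IntegrableOn (fun z => ‖ρ z‖ ^ s) P := by
    refine Measure.integrableOn_of_bounded (M := (n : ℝ) ^ s) hPf
      (hρm.norm.pow_const _).aestronglyMeasurable ?_
    refine (ae_restrict_iff' hPm).2 (Eventually.of_forall fun z hz => ?_)
    rw [Real.norm_of_nonneg (Real.rpow_nonneg (norm_nonneg _) _)]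
    exact Real.rpow_le_rpow (norm_nonneg _) hz.1 (by linarith)
  set J : ℝ := ∫ z in P, ‖ρ z‖ ^ s with hJ
  have hJ0 : 0 ≤ J := integral_nonneg fun z => Real.rpow_nonneg (norm_nonneg _) _
  have hv : φ (lam A q g) = (J : ℂ) := by
    rw [(rho_rep hO hq φ 0 n _ g hBd).2]
    simp_rw [← hρ, hgρ]
    have h1 : ∫ z, ((P.indicator (fun z => ‖ρ z‖ ^ s) z : ℝ) : ℂ) =
        ((∫ z, P.indicator (fun z => ‖ρ z‖ ^ s) z : ℝ) : ℂ) := integral_ofReal
    rw [h1, integral_indicator hPm]
  have hgq : ∀ z, ‖g z‖ ^ q = P.indicator (fun z => ‖ρ z‖ ^ s) z := by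
    intro z
    by_cases hz : z ∈ P
    · rw [hgn z hz, indicator_of_mem hz, ← Real.rpow_mul (norm_nonneg _), hsq]
    · rw [hg0 z hz, indicator_of_notMem hz, norm_zero, Real.zero_rpow (by linarith)]
  have hne : eLpNorm g (ENNReal.ofReal q) (volume.restrict S) ≤ ENNReal.ofReal (J ^ (1 / q)) := by
    refine (eLpNorm_mono_measure _ Measure.restrict_le_self).trans (le_of_eq ?_)
    have hgv : MemLp g (ENNReal.ofReal q) volume := by
      have h1 : MemLp (P.indicator fun _ => (n : ℝ) ^ (s - 1)) (ENNReal.ofReal q) volume :=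
        memLp_indicator_const _ hPm _ (Or.inr hPf)
      refine h1.mono hgm.aestronglyMeasurable (Eventually.of_forall fun z => ?_)
      by_cases hz : z ∈ P
      · rw [indicator_of_mem hz, Real.norm_of_nonneg (by positivity)]
        exact hBd.bd z
      · rw [hg0 z hz, norm_zero]
        exact norm_nonneg _
    rw [hgv.eLpNorm_eq_integral_rpow_norm (by
      rw [Ne, ENNReal.ofReal_eq_zero, not_le]; linarith) ENNReal.ofReal_ne_top,
      ENNReal.toReal_ofReal (by linarith), ← one_div]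
    simp_rw [hgq]
    rw [integral_indicator hPm]
  have hmain : J ≤ (C * ‖φ‖) * J ^ (1 / q) := by
    have h1 : ‖φ (lam A q g)‖ ≤ ‖φ‖ * (C * J ^ (1 / q)) := by
      refine (φ.le_opNorm _).trans (mul_le_mul_of_nonneg_left ?_ (norm_nonneg _))
      refine (lam_norm hO hq (bd_memLp hBd)).trans (mul_le_mul_of_nonneg_left ?_ hO.nonneg)
      exact ENNReal.toReal_le_of_le_ofReal (by positivity) hne
    rw [hv, Complex.norm_real, Real.norm_of_nonneg hJ0] at h1
    linarith
  have hfin : J ≤ (C * ‖φ‖) ^ s := by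
    have hCn : 0 ≤ C * ‖φ‖ := mul_nonneg hO.nonneg (norm_nonneg _)
    rcases hJ0.eq_or_lt with h0 | h0
    · rw [← h0]
      positivity
    · have h1 : J ^ (1 - 1 / q) ≤ C * ‖φ‖ := by
        rw [Real.rpow_sub h0, Real.rpow_one, div_le_iff₀ (by positivity)]
        exact hmain
      have h2 : (J ^ (1 - 1 / q)) ^ s ≤ (C * ‖φ‖) ^ s :=
        Real.rpow_le_rpow (by positivity) h1 (by linarith)
      rw [← Real.rpow_mul hJ0] at h2
      have h3 : (1 - 1 / q) * s = 1 := by
        rw [hs]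
        field_simp
      rwa [h3, Real.rpow_one] at h2
  rw [← ofReal_integral_eq_lintegral_ofReal hI
    (Eventually.of_forall fun z => Real.rpow_nonneg (norm_nonneg _) _)]
  exact ENNReal.ofReal_le_ofReal hfin

theorem rho_lq (hO : Orb S N A q C) (hq : 1 < q) (φ : E →L[ℂ] ℂ) :
    ∫⁻ z, ENNReal.ofReal (‖rho hO hq φ z‖ ^ (q / (q - 1))) ≤
      ENNReal.ofReal ((C * ‖φ‖) ^ (q / (q - 1))) := by
  set P : ℕ → Set ℂ := fun n => {z | ‖rho hO hq φ z‖ ≤ n} ∩ ball 0 n with hP
  have hU : ⋃ n, P n = univ := by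
    refine eq_univ_of_forall fun z => ?_
    obtain ⟨n, hn⟩ := exists_nat_gt (max ‖rho hO hq φ z‖ ‖z‖)
    refine mem_iUnion.2 ⟨n, ((le_max_left _ _).trans hn.le), ?_⟩
    rw [mem_ball_zero_iff]
    exact (le_max_right _ _).trans_lt hn
  have hmono : Monotone P := by
    intro n m hnm z hz
    have h1 : (n : ℝ) ≤ m := by exact_mod_cast hnm
    exact ⟨le_trans hz.1 h1, ball_subset_ball h1 hz.2⟩
  rw [← setLIntegral_univ, ← hU, setLIntegral_iUnion_of_directed _ hmono.directed_le]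
  exact iSup_le fun n => rho_part hO hq φ n

lemma sum_pow {a : ℕ → ℂ} {s : ℝ} (hs0 : 0 < s) (hs : s ≤ 2)
    (h : ∑' i, ENNReal.ofReal (‖a i‖ ^ s) ≠ ⊤) : nn (a) ≠ ⊤ := by
  have h1 : Summable fun i => ‖a i‖ ^ s := by
    refine (ENNReal.summable_toReal h).congr fun i => ?_
    rw [ENNReal.toReal_ofReal (Real.rpow_nonneg (norm_nonneg _) _)]
  have h2 : ∀ᶠ i in cofinite, ‖‖a i‖ ^ 2‖ ≤ ‖a i‖ ^ s := by
    have h3 : ∀ᶠ i in cofinite, ‖a i‖ ^ s < 1 :=
      h1.tendsto_cofinite_zero.eventually_lt_const one_pos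
    filter_upwards [h3] with i hi
    have h4 : ‖a i‖ < 1 := by
      by_contra hcon
      push Not at hcon
      have := Real.one_le_rpow hcon hs0.le
      linarith
    rw [Real.norm_of_nonneg (by positivity), ← Real.rpow_natCast]
    rcases (norm_nonneg (a i)).eq_or_lt with h0 | h0
    · rw [← h0, Real.zero_rpow hs0.ne']
      simp
    · exact Real.rpow_le_rpow_of_exponent_ge h0 h4.le (by exact_mod_cast hs)
  have h5 : Summable fun i => ‖a i‖ ^ 2 := Summable.of_norm_bounded_eventually h1 h2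
  unfold nn
  rw [← ENNReal.ofReal_tsum_of_nonneg (fun j => by positivity) h5]
  exact (ENNReal.rpow_lt_top_of_nonneg (by norm_num) ENNReal.ofReal_ne_top).ne

theorem rho_sq (hO : Orb S N A q C) (hq : 2 ≤ q) (ψ : ℕ → (E →L[ℂ] ℂ))
    (hψ : Summable fun i => ‖ψ i‖ ^ (q / (q - 1))) :
    ∀ᵐ z : ℂ, nn (fun i => rho hO (by linarith) (ψ i) z) ≠ ⊤ := by
  have hq0 : 0 < q - 1 := by linarith
  have hs0 : 0 < q / (q - 1) := by positivity
  have hs2 : q / (q - 1) ≤ 2 := by
    rw [div_le_iff₀ hq0]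
    linarith
  have hm : ∀ i, Measurable fun z => ENNReal.ofReal (‖rho hO (by linarith) (ψ i) z‖ ^ (q / (q - 1))) :=
    fun i => ((rho_meas hO (by linarith) (ψ i)).norm.pow_const _).ennreal_ofReal
  have h1 : ∫⁻ z, ∑' i, ENNReal.ofReal (‖rho hO (by linarith) (ψ i) z‖ ^ (q / (q - 1))) ≠ ⊤ := by
    rw [lintegral_tsum fun i => (hm i).aemeasurable]
    refine ne_top_of_le_ne_top ?_ (ENNReal.tsum_le_tsum fun i => rho_lq hO (by linarith) (ψ i))
    have h2 : Summable fun i => (C * ‖ψ i‖) ^ (q / (q - 1)) := by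
      refine (hψ.mul_left (C ^ (q / (q - 1)))).congr fun i => ?_
      rw [Real.mul_rpow hO.nonneg (norm_nonneg _)]
    rw [← ENNReal.ofReal_tsum_of_nonneg (fun i => Real.rpow_nonneg
      (mul_nonneg hO.nonneg (norm_nonneg _)) _) h2]
    exact ENNReal.ofReal_ne_top
  filter_upwards [ae_lt_top (Measurable.tsum hm) h1] with z hz
  exact sum_pow hs0 hs2 hz.ne

end

end Pool.Agent.N812.BA
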