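import Pool.Agent.N812.BA.Pe

/-!
# The main theorem
-/

set_option autoImplicit false

namespace Pool.Agent.N812.BA

open MeasureTheory Set Metric Filter Topology
open Pool.Agent.R276.CP
open Pool.Agent.R277.SP (FC cK zz cK_apply ad ad_apply ad_apply2 ev ev_apply adΦ adΦ_apply)
open Pool.Agent.N812.IS
open Pool.Agent.Y271.RO (Bd)
open Pool.Agent.Y283.NK (HasHyp)
open scoped InnerProductSpace ENNReal NNReal BoundedContinuousFunction

section

variable {X : Type} [NormedAddCommGroup X] [NormedSpace ℂ X] {S : Set ℂ}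

/-- the orbit map -/
noncomputable def orb (Φ : C(S, ℂ) →ₐ[ℂ] (X →L[ℂ] X)) (x : X) : C(S, ℂ) →ₗ[ℂ] X where
  toFun h := Φ h x
  map_add' h h' := by
    rw [map_add]
    rfl
  map_smul' c h := by
    rw [map_smul]
    rfl

lemma orb_apply (Φ : C(S, ℂ) →ₐ[ℂ] (X →L[ℂ] X)) (x : X) (h : C(S, ℂ)) : orb Φ x h = Φ h x := rfl

/-- `‖h(N) x‖ ≤ C ‖h‖_{L^q(S)}` -/
def AcV (Φ : C(S, ℂ) →ₐ[ℂ] (X →L[ℂ] X)) (q : ℝ) (x : X) : Prop :=
  ∃ C : ℝ, ∀ h : C(ℂ, ℂ), ‖Φ (h.restrict S) x‖ ≤ C * (∫ z in S, ‖h z‖ ^ q) ^ (1 / q)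

variable [CompactSpace S] {Φ : C(S, ℂ) →ₐ[ℂ] (X →L[ℂ] X)} {N : X →L[ℂ] X} {M q : ℝ} {x : X}

lemma orb_of (hF : FC Φ N M) (hx : AcV Φ q x) : ∃ C, Orb S N (orb Φ x) q C := by
  obtain ⟨C, hC⟩ := hx
  refine ⟨|C|, abs_nonneg C, fun h h' he => ?_, fun h => ?_⟩
  · rw [orb_apply, orb_apply, ← hF.id]
    have h1 : h' = zz S * h := by
      ext s
      exact he s
    rw [h1, map_mul]
    rfl
  · refine (hC h).trans (mul_le_mul_of_nonneg_right (le_abs_self C) ?_)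
    positivity

omit [CompactSpace S] in
/-- positivity of the measure where the density does not vanish -/
lemma dens_pos {ρ g : ℂ → ℂ} {c : ℂ} {r : ℝ} (h : ∫ z, g z * ρ z ≠ 0)
    (hs : ∀ z, z ∉ ball c r → g z = 0) : volume ({z | ρ z ≠ 0} ∩ ball c r) ≠ 0 := by
  intro h0
  apply h
  rw [measure_eq_zero_iff_ae_notMem] at h0
  rw [integral_congr_ae (g := fun _ => 0)]
  · simp
  · filter_upwards [h0] with z hz
    by_contra hne
    apply hz
    refine ⟨fun h1 => hne (by rw [h1, mul_zero]), ?_⟩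
    by_contra h2
    exact hne (by rw [hs z h2, zero_mul])

theorem one [CompleteSpace X] (hF : FC Φ N M) (hq : 2 ≤ q) (hx : AcV Φ q x) {p : ℝ} (hp : 0 < p)
    (hpq : p * (3 - 2 / q) < 2) {K : X →L[ℂ] X} (hK : PNuc p K) :
    (∀ (c : ℂ) (r : ℝ) (h : C(ℂ, ℂ)), 0 < r → (∀ z, z ∉ ball c r → h z = 0) →
      Φ (h.restrict S) x ≠ 0 → Chb (N + K) c r) ∧
    (x ≠ 0 → ∃ Q : Set ℂ, MeasurableSet Q ∧ volume Q ≠ 0 ∧ ∀ (c : ℂ) (r : ℝ), 0 < r →
      volume (Q ∩ ball c r) ≠ 0 → Chb (N + K) c r) := by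
  have hSc : IsCompact S := isCompact_iff_compactSpace.2 inferInstance
  have hSm : MeasurableSet S := hSc.measurableSet
  have hfin : IsFiniteMeasure ((volume : Measure ℂ).restrict S) :=
    ⟨by rw [Measure.restrict_apply_univ]; exact hSc.measure_lt_top⟩
  have hq1 : 1 < q := by linarith
  have hfact : Fact (1 ≤ ENNReal.ofReal q) := ⟨by
    rw [← ENNReal.ofReal_one]
    exact ENNReal.ofReal_le_ofReal hq1.le⟩
  obtain ⟨C, hO⟩ := orb_of hF hx
  obtain ⟨u, v, S₁, S₂, κ, κ', hS₁, hS₂, hu, hv, hκ, hκ', hvs, hsum⟩ := hK.unb hp hq hpq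
  obtain ⟨C', hC0, hW⟩ := fF_wk hF
  have hC := (FC_rc hF).cal
  have hP : Pert (fun y : X →L[ℂ] ℂ => y) (fF hF) u v K :=
    pert_of hC hC0 hW hS₁ hS₂ hu hv hκ hκ' hsum
  have hbdS : ∀ a : ℂ, ∃ D : ℝ, 0 ≤ D ∧ ∀ z ∈ S, ‖z - a‖ ≤ D := by
    intro a
    obtain ⟨D, hD⟩ := hSc.isBounded.exists_norm_le
    refine ⟨|D| + ‖a‖, by positivity, fun z hz => (norm_sub_le _ _).trans ?_⟩
    exact add_le_add ((hD z hz).trans (le_abs_self D)) le_rfl
  have hV : Vec N (fun y : X →L[ℂ] ℂ => y) (lam (orb Φ x) q) (fun y => rho hO hq1 y) := by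
    refine ⟨fun a c r B g hg => ?_, fun r hr => ?_, fun y => rho_meas hO hq1 y,
      fun y a r B g hg => rho_rep hO hq1 y a r B g hg⟩
    · obtain ⟨D, hD0, hD⟩ := hbdS a
      exact lam_step hO hq1 hSm hD0 hD (bd_memLp hg)
    · refine ⟨C * (volume (ball (0:ℂ) r)).toReal ^ (1 / q),
        mul_nonneg hO.nonneg (by positivity), fun a B g hg => ?_⟩
      refine (lam_norm hO hq1 (bd_memLp hg)).trans ?_
      rw [mul_assoc]
      refine mul_le_mul_of_nonneg_left ?_ hO.nonneg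
      have h1 := eLp_bd (S := S) (q := q) hg.nonneg hq1 hg.bd measurableSet_ball
        measure_ball_lt_top.ne hg.supp
      rw [Measure.addHaar_ball_center] at h1
      rw [mul_comm]
      exact h1
  have hsq := rho_sq hO hq v hvs
  have key : ∀ (y : X →L[ℂ] ℂ) (c : ℂ) (r : ℝ), 0 < r →
      volume ({z | rho hO hq1 y z ≠ 0} ∩ ball c r) ≠ 0 → Chb (N + K) c r :=
    fun y c r hr hpos => half hC hP hV (fun i j => (FC_rc hF).meas _ _) hsq y c hr hpos
  refine ⟨fun c r h hr hh hne => ?_, fun hx0 => ?_⟩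
  · have hcs : HasCompactSupport h := by
      refine HasCompactSupport.intro (isCompact_closedBall c r) fun z hz => hh z fun hz' => ?_
      exact hz (ball_subset_closedBall hz')
    obtain ⟨b, hb⟩ := hcs.exists_bound_of_continuous h.continuous
    have hb0 : 0 ≤ b := (norm_nonneg _).trans (hb 0)
    have hBd : Bd (fun z => h z) c r b := ⟨h.continuous.measurable, hb0, hb, hh⟩
    have e1 : lam (orb Φ x) q (fun z => h z) = Φ (h.restrict S) x :=
      lam_bcf hO hq1 (BoundedContinuousFunction.ofNormedAddCommGroup h h.continuous b hb)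
    obtain ⟨y, hy⟩ : ∃ y : X →L[ℂ] ℂ, y (Φ (h.restrict S) x) ≠ 0 := by
      by_contra hcon
      push Not at hcon
      exact hne (SeparatingDual.eq_zero_of_forall_dual_eq_zero (R := ℂ) hcon)
    refine key y c r hr (dens_pos (g := fun z => h z) ?_ hh)
    rw [← (rho_rep hO hq1 y c r b _ hBd).2, e1]
    exact hy
  · obtain ⟨D, hD⟩ := hSc.isBounded.exists_norm_le
    have hSD : S ⊆ ball (0:ℂ) (|D| + 1) := fun z hz => by
      rw [mem_ball_zero_iff]
      exact (hD z hz).trans_lt (by linarith [le_abs_self D])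
    have hBd : Bd (ind (ball (0:ℂ) (|D| + 1))) 0 (|D| + 1) 1 := ind_bd measurableSet_ball subset_rfl
    have e1 : lam (orb Φ x) q (ind (ball (0:ℂ) (|D| + 1))) = x := by
      have h1 := lam_bcf hO hq1 (BoundedContinuousFunction.const ℂ (1 : ℂ))
      have h2 : bm (orb Φ x) (BoundedContinuousFunction.const ℂ (1 : ℂ)) = x := by
        show Φ _ x = x
        have h3 : (BoundedContinuousFunction.const ℂ (1 : ℂ)).toContinuousMap.restrict S = 1 := by
          ext s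
          rfl
        rw [h3, map_one]
        rfl
      rw [h2] at h1
      have hm : MemLp (fun z => (BoundedContinuousFunction.const ℂ (1 : ℂ)) z)
          (ENNReal.ofReal q) (volume.restrict S) :=
        (BoundedContinuousFunction.const ℂ (1 : ℂ)).memLp_top.mono_exponent le_top
      have h4 : lam (orb Φ x) q (ind (ball (0:ℂ) (|D| + 1))) =
          lam (orb Φ x) q (fun z => (BoundedContinuousFunction.const ℂ (1 : ℂ)) z) := by
        rw [lam_eq hm, lam_eq (bd_memLp hBd)]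
        congr 1
        rw [MemLp.toLp_eq_toLp_iff]
        filter_upwards [ae_restrict_mem hSm] with z hz
        exact indicator_of_mem (hSD hz) _
      rw [h4, h1]
    obtain ⟨y, hy⟩ : ∃ y : X →L[ℂ] ℂ, y x ≠ 0 := by
      by_contra hcon
      push Not at hcon
      exact hx0 (SeparatingDual.eq_zero_of_forall_dual_eq_zero (R := ℂ) hcon)
    refine ⟨{z | rho hO hq1 y z ≠ 0},
      (measurableSet_eq_fun (rho_meas hO hq1 y) measurable_const).compl, fun h0 => ?_,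
      fun c r hr hpos => key y c r hr hpos⟩
    have h1 := dens_pos (ρ := rho hO hq1 y) (g := ind (ball (0:ℂ) (|D| + 1))) (c := 0)
      (r := |D| + 1) (by
        rw [← (rho_rep hO hq1 y 0 _ 1 _ hBd).2, e1]
        exact hy) hBd.supp
    exact h1 (measure_mono_null inter_subset_left h0)

/-- points of the support -/
lemma ex_c {Q : Set ℂ} (hQ : volume Q ≠ 0) (c' : ℂ) :
    ∃ c : ℂ, c ≠ c' ∧ ∀ r : ℝ, 0 < r → volume (Q ∩ ball c r) ≠ 0 := by
  have h1 : volume (Q \ {c'}) ≠ 0 := by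
    rw [measure_sdiff_null (measure_singleton c')]
    exact hQ
  obtain ⟨c, hc, h2⟩ := exists_mem_forall_mem_nhdsWithin_pos_measure h1
  refine ⟨c, hc.2, fun r hr h0 => ?_⟩
  have h3 := h2 ((Q \ {c'}) ∩ ball c r)
    (inter_mem_nhdsWithin _ (ball_mem_nhds c hr))
  exact h3.ne' (measure_mono_null (inter_subset_inter_left _ sdiff_subset) h0)

/-- **The main theorem** -/
theorem two [CompleteSpace X] (hF : FC Φ N M) (hq : 2 ≤ q) (hx : AcV Φ q x) (hx0 : x ≠ 0)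
    {q' : ℝ} (hq' : 2 ≤ q') {y : X →L[ℂ] ℂ} (hy : AcV (adΦ Φ) q' y) (hy0 : y ≠ 0) {p : ℝ}
    (hp : 0 < p) (hpq : p * (3 - 2 / q) < 2) (hpq' : p * (3 - 2 / q') < 2) {K : X →L[ℂ] X}
    (hK : PNuc p K) : HasHyp (N + K) := by
  have hp1 : p < 1 := by
    have h3 : 2 / q ≤ 1 := by
      rw [div_le_one (by linarith)]
      exact hq
    nlinarith
  obtain ⟨Q, -, hQ0, hQ⟩ := (one hF hq hx hp hpq hK).2 hx0
  obtain ⟨Q', -, hQ0', hQ'⟩ := (one hF.dual hq' hy hp hpq' (hK.dual hp hp1)).2 hy0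
  obtain ⟨c₁, -, h1⟩ := ex_c hQ0 0
  obtain ⟨c₂, hne, h2⟩ := ex_c hQ0' c₁
  have hd : 0 < ‖c₁ - c₂‖ := norm_pos_iff.2 (sub_ne_zero.2 (Ne.symm hne))
  obtain ⟨x', C, hx'0, hx'b, hx'⟩ := hQ c₁ (‖c₁ - c₂‖ / 3) (by positivity) (h1 _ (by positivity))
  obtain ⟨y', C', hy'0, hy'b, hy'⟩ := hQ' c₂ (‖c₁ - c₂‖ / 3) (by positivity) (h2 _ (by positivity))
  have had : ad (N + K) = ad N + ad K := by
    ext y x
    show y (N x + K x) = y (N x) + y (K x)
    rw [map_add]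
  exact Pool.Agent.R277.SP.ann (N + K) c₁ c₂ _ _ C C' x' y' (by positivity) (by positivity)
    (by linarith) hx' hx'b (fun a => by rw [had]; exact hy' a) hy'b hx'0 hy'0

/-- powers -/
lemma Chb.pow {T : X →L[ℂ] X} {c : ℂ} {r : ℝ} (h : Chb T c r) :
    ∃ (w : X) (C : ℝ), w ≠ 0 ∧ ∀ n : ℕ, ‖((T - c • (1 : X →L[ℂ] X)) ^ n) w‖ ≤ C * r ^ n := by
  obtain ⟨Y, C, h0, hb, hs⟩ := h
  refine ⟨Y 0, C, h0, fun n => ?_⟩
  have e : ((T - c • (1 : X →L[ℂ] X)) ^ n) (Y 0) = Y n := by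
    induction n with
    | zero => rfl
    | succ n ih =>
      rw [pow_succ']
      show (T - c • (1 : X →L[ℂ] X)) (((T - c • (1 : X →L[ℂ] X)) ^ n) (Y 0)) = _
      rw [ih, ← hs n]
      rfl
  rw [e]
  exact hb n

end

end Pool.Agent.N812.BA
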