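import Pool.Agent.N812.BA.Hl
import Pool.Agent.N812.IS.Rn

/-!
# The extension of `h ↦ h(N) x` to bounded measurable functions
-/

set_option autoImplicit false

namespace Pool.Agent.N812.BA

open MeasureTheory Set Metric Filter Topology
open Pool.Agent.N812.IS
open Pool.Agent.Y271.RO (Bd)
open scoped InnerProductSpace ENNReal NNReal BoundedContinuousFunction

/-- the orbit map `A h = h(N) x` -/
structure Orb {E : Type} [NormedAddCommGroup E] [NormedSpace ℂ E] (S : Set ℂ) (N : E →L[ℂ] E)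
    (A : C(S, ℂ) →ₗ[ℂ] E) (q C : ℝ) : Prop where
  nonneg : 0 ≤ C
  step : ∀ h h' : C(S, ℂ), (∀ s : S, h' s = s * h s) → N (A h) = A h'
  bd : ∀ h : C(ℂ, ℂ), ‖A (h.restrict S)‖ ≤ C * (∫ z in S, ‖h z‖ ^ q) ^ (1 / q)

section

variable {E : Type} [NormedAddCommGroup E] [NormedSpace ℂ E] {S : Set ℂ} {N : E →L[ℂ] E}
  {A : C(S, ℂ) →ₗ[ℂ] E} {q C : ℝ}

/-- the orbit map on the bounded continuous functions on the plane -/
noncomputable def bm (A : C(S, ℂ) →ₗ[ℂ] E) : (ℂ →ᵇ ℂ) →ₗ[ℂ] E where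
  toFun h := A (h.toContinuousMap.restrict S)
  map_add' h h' := by
    rw [← map_add]
    rfl
  map_smul' c h := by
    rw [RingHom.id_apply, ← map_smul]
    rfl

variable [IsFiniteMeasure (volume.restrict S)] [Fact (1 ≤ ENNReal.ofReal q)]

lemma bm_bd (hO : Orb S N A q C) (hq : 1 < q) (h : ℂ →ᵇ ℂ) : ‖bm A h‖ ≤
    C * ‖BoundedContinuousFunction.toLp (ENNReal.ofReal q) (volume.restrict S) ℂ h‖ := by
  have h1 := hO.bd h.toContinuousMap
  refine h1.trans (mul_le_mul_of_nonneg_left (le_of_eq ?_) hO.nonneg)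
  have hm : MemLp (fun z => h z) (ENNReal.ofReal q) (volume.restrict S) :=
    h.memLp_top.mono_exponent le_top
  have h2 : ‖BoundedContinuousFunction.toLp (ENNReal.ofReal q) (volume.restrict S) ℂ h‖ =
      (eLpNorm (fun z => h z) (ENNReal.ofReal q) (volume.restrict S)).toReal := by
    rw [Lp.norm_def]
    congr 1
    exact eLpNorm_congr_ae (BoundedContinuousFunction.coeFn_toLp _ _ ℂ h)
  rw [h2, hm.eLpNorm_eq_integral_rpow_norm (by
      rw [Ne, ENNReal.ofReal_eq_zero, not_le]; linarith) ENNReal.ofReal_ne_top,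
    ENNReal.toReal_ofReal (by positivity), ENNReal.toReal_ofReal (by linarith), one_div]
  rfl

lemma toLp_dense (q : ℝ) [Fact (1 ≤ ENNReal.ofReal q)] (S : Set ℂ)
    [IsFiniteMeasure (volume.restrict S)] :
    DenseRange ((BoundedContinuousFunction.toLp (α := ℂ) (E := ℂ) (ENNReal.ofReal q)
      (volume.restrict S) ℂ : (ℂ →ᵇ ℂ) →L[ℂ] Lp ℂ (ENNReal.ofReal q) (volume.restrict S)) :
        (ℂ →ᵇ ℂ) →ₗ[ℂ] Lp ℂ (ENNReal.ofReal q) (volume.restrict S)) :=
  BoundedContinuousFunction.toLp_denseRange ℂ (volume.restrict S) ℂ ENNReal.ofReal_ne_top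

variable [CompleteSpace E]

/-- the extension to `L^q` -/
noncomputable def lam0 (A : C(S, ℂ) →ₗ[ℂ] E) (q : ℝ) [Fact (1 ≤ ENNReal.ofReal q)] :
    Lp ℂ (ENNReal.ofReal q) (volume.restrict S) →L[ℂ] E :=
  (bm A).extendOfNorm (BoundedContinuousFunction.toLp (α := ℂ) (E := ℂ) (ENNReal.ofReal q)
      (volume.restrict S) ℂ : (ℂ →ᵇ ℂ) →ₗ[ℂ] Lp ℂ (ENNReal.ofReal q) (volume.restrict S))

open Classical in
/-- the extension -/
noncomputable def lam (A : C(S, ℂ) →ₗ[ℂ] E) (q : ℝ) [Fact (1 ≤ ENNReal.ofReal q)] (g : ℂ → ℂ) : E :=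
  lam0 A q (if h : MemLp g (ENNReal.ofReal q) (volume.restrict S) then h.toLp g else 0)

lemma lam_eq {g : ℂ → ℂ} (h : MemLp g (ENNReal.ofReal q) (volume.restrict S)) :
    lam A q g = lam0 A q (h.toLp g) := by
  unfold lam
  rw [dif_pos h]

lemma lam_norm (hO : Orb S N A q C) (hq : 1 < q) {g : ℂ → ℂ}
    (h : MemLp g (ENNReal.ofReal q) (volume.restrict S)) :
    ‖lam A q g‖ ≤ C * (eLpNorm g (ENNReal.ofReal q) (volume.restrict S)).toReal := by
  rw [lam_eq h, ← Lp.norm_toLp g h]
  exact LinearMap.norm_extendOfNorm_apply_le (toLp_dense q S) C (bm_bd hO hq) _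

lemma lam_bcf (hO : Orb S N A q C) (hq : 1 < q) (h : ℂ →ᵇ ℂ) : lam A q (fun z => h z) = bm A h := by
  have hm : MemLp (fun z => h z) (ENNReal.ofReal q) (volume.restrict S) :=
    h.memLp_top.mono_exponent le_top
  rw [lam_eq hm]
  have h2 : hm.toLp (fun z => h z) =
      BoundedContinuousFunction.toLp (ENNReal.ofReal q) (volume.restrict S) ℂ h := by
    rw [Lp.ext_iff]
    exact hm.coeFn_toLp.trans (BoundedContinuousFunction.coeFn_toLp _ _ ℂ h).symm
  rw [h2]
  exact LinearMap.extendOfNorm_eq (toLp_dense q S) ⟨C, bm_bd hO hq⟩ h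

lemma lam_add {g g' : ℂ → ℂ} (h : MemLp g (ENNReal.ofReal q) (volume.restrict S))
    (h' : MemLp g' (ENNReal.ofReal q) (volume.restrict S)) :
    lam A q (fun z => g z + g' z) = lam A q g + lam A q g' := by
  have hs : MemLp (fun z => g z + g' z) (ENNReal.ofReal q) (volume.restrict S) := h.add h'
  rw [lam_eq h, lam_eq h', lam_eq hs, ← map_add]
  rfl

lemma lam_smul (c : ℂ) {g : ℂ → ℂ} (h : MemLp g (ENNReal.ofReal q) (volume.restrict S)) :
    lam A q (fun z => c * g z) = c • lam A q g := by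
  have hs : MemLp (fun z => c * g z) (ENNReal.ofReal q) (volume.restrict S) := h.const_smul c
  rw [lam_eq h, lam_eq hs, ← map_smul]
  rfl

lemma lam_sub {g g' : ℂ → ℂ} (h : MemLp g (ENNReal.ofReal q) (volume.restrict S))
    (h' : MemLp g' (ENNReal.ofReal q) (volume.restrict S)) :
    lam A q (fun z => g z - g' z) = lam A q g - lam A q g' := by
  have hs : MemLp (fun z => g z - g' z) (ENNReal.ofReal q) (volume.restrict S) := h.sub h'
  rw [lam_eq h, lam_eq h', lam_eq hs, ← map_sub]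
  rfl

omit [Fact (1 ≤ ENNReal.ofReal q)] in
lemma bd_memLp {g : ℂ → ℂ} {a : ℂ} {r B : ℝ} (hg : Bd g a r B) :
    MemLp g (ENNReal.ofReal q) (volume.restrict S) :=
  MemLp.of_bound hg.meas.aestronglyMeasurable B (Eventually.of_forall hg.bd)

omit [Fact (1 ≤ ENNReal.ofReal q)] in
lemma mulz_memLp {D : ℝ} (hS : MeasurableSet S) {a : ℂ} (hD : ∀ z ∈ S, ‖z - a‖ ≤ D) {g : ℂ → ℂ}
    (h : MemLp g (ENNReal.ofReal q) (volume.restrict S)) :
    MemLp (fun z => (z - a) * g z) (ENNReal.ofReal q) (volume.restrict S) := by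
  refine MemLp.of_le_mul (c := D) h ?_ ?_
  · exact (measurable_id.sub_const a).aestronglyMeasurable.mul h.1
  · rw [ae_restrict_iff' hS]
    refine Eventually.of_forall fun z hz => ?_
    rw [norm_mul]
    exact mul_le_mul_of_nonneg_right (hD z hz) (norm_nonneg _)

/-- the extension commutes with the operator -/
theorem lam_step (hO : Orb S N A q C) (hq : 1 < q) (hS : MeasurableSet S) {a : ℂ} {D : ℝ}
    (hD0 : 0 ≤ D) (hD : ∀ z ∈ S, ‖z - a‖ ≤ D) {g : ℂ → ℂ}
    (hg : MemLp g (ENNReal.ofReal q) (volume.restrict S)) :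
    N (lam A q g) - a • lam A q g = lam A q (fun z => (z - a) * g z) := by
  rw [← sub_eq_zero, ← norm_le_zero_iff]
  refine le_of_forall_pos_le_add fun ε hε => ?_
  rw [zero_add]
  set L : ℝ := C * (‖N‖ + ‖a‖ + D) with hL
  have hL0 : 0 ≤ L := mul_nonneg hO.nonneg (by positivity)
  set δ : ℝ := ε / (L + 1) with hδ
  have hδ0 : 0 < δ := by positivity
  obtain ⟨h, h1, h2, h3, h4⟩ := hg.exists_hasCompactSupport_eLpNorm_sub_le ENNReal.ofReal_ne_top
    (ε := ENNReal.ofReal δ) (by rw [Ne, ENNReal.ofReal_eq_zero, not_le]; exact hδ0)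
  -- the continuous function
  have e0 : N (lam A q h) - a • lam A q h = lam A q (fun z => (z - a) * h z) := by
    have h5 : HasCompactSupport fun z : ℂ => (z - a) * h z := h1.mul_left
    have h6 : Continuous fun z : ℂ => (z - a) * h z := (continuous_id.sub continuous_const).mul h3
    obtain ⟨b1, hb1⟩ := h1.exists_bound_of_continuous h3
    obtain ⟨b2, hb2⟩ := h5.exists_bound_of_continuous h6
    set H1 : ℂ →ᵇ ℂ := BoundedContinuousFunction.ofNormedAddCommGroup h h3 b1 hb1 with hH1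
    set H2 : ℂ →ᵇ ℂ := BoundedContinuousFunction.ofNormedAddCommGroup _ h6 b2 hb2 with hH2
    have e1 : lam A q h = A (H1.toContinuousMap.restrict S) := lam_bcf hO hq H1
    have e2 : lam A q (fun z => (z - a) * h z) = A (H2.toContinuousMap.restrict S) :=
      lam_bcf hO hq H2
    rw [e1, e2]
    have e3 := hO.step (H1.toContinuousMap.restrict S)
      (H2.toContinuousMap.restrict S + a • H1.toContinuousMap.restrict S) (fun s => by
        show (s - a) * h s + a * h s = s * h s
        ring)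
    rw [e3, map_add, map_smul]
    abel
  have hd : MemLp (fun z => g z - h z) (ENNReal.ofReal q) (volume.restrict S) := hg.sub h4
  have e4 : lam A q g = lam A q (fun z => g z - h z) + lam A q h := by
    rw [lam_sub hg h4]
    abel
  have e5 : lam A q (fun z => (z - a) * g z) = lam A q (fun z => (z - a) * (g z - h z)) +
      lam A q (fun z => (z - a) * h z) := by
    rw [← lam_add (mulz_memLp hS hD hd) (mulz_memLp hS hD h4)]
    congr 1
    funext z
    ring
  have hn : (eLpNorm (fun z => g z - h z) (ENNReal.ofReal q) (volume.restrict S)).toReal ≤ δ := by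
    refine ENNReal.toReal_le_of_le_ofReal hδ0.le ?_
    exact h2
  have n1 : ‖lam A q (fun z => g z - h z)‖ ≤ C * δ :=
    (lam_norm hO hq hd).trans (mul_le_mul_of_nonneg_left hn hO.nonneg)
  have n2 : ‖lam A q (fun z => (z - a) * (g z - h z))‖ ≤ C * (D * δ) := by
    refine (lam_norm hO hq (mulz_memLp hS hD hd)).trans (mul_le_mul_of_nonneg_left ?_ hO.nonneg)
    have h7 : eLpNorm (fun z => (z - a) * (g z - h z)) (ENNReal.ofReal q) (volume.restrict S) ≤
        ENNReal.ofReal D * eLpNorm (fun z => g z - h z) (ENNReal.ofReal q) (volume.restrict S) := by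
      refine eLpNorm_le_mul_eLpNorm_of_ae_le_mul ?_ _
      rw [ae_restrict_iff' hS]
      refine Eventually.of_forall fun z hz => ?_
      rw [norm_mul]
      exact mul_le_mul_of_nonneg_right (hD z hz) (norm_nonneg _)
    refine ENNReal.toReal_le_of_le_ofReal (by positivity) (h7.trans ?_)
    rw [ENNReal.ofReal_mul hD0]
    exact mul_le_mul' le_rfl h2
  have e6 : N (lam A q g) - a • lam A q g - lam A q (fun z => (z - a) * g z) =
      N (lam A q (fun z => g z - h z)) - a • lam A q (fun z => g z - h z) -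
        lam A q (fun z => (z - a) * (g z - h z)) := by
    rw [e4, e5, map_add, smul_add, ← e0]
    abel
  rw [e6]
  calc ‖N (lam A q (fun z => g z - h z)) - a • lam A q (fun z => g z - h z) -
        lam A q (fun z => (z - a) * (g z - h z))‖
      ≤ ‖N (lam A q (fun z => g z - h z))‖ + ‖a • lam A q (fun z => g z - h z)‖ +
        ‖lam A q (fun z => (z - a) * (g z - h z))‖ :=
        (norm_sub_le _ _).trans (add_le_add (norm_sub_le _ _) le_rfl)
    _ ≤ ‖N‖ * (C * δ) + ‖a‖ * (C * δ) + C * (D * δ) := by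
        refine add_le_add (add_le_add ?_ ?_) n2
        · exact (N.le_opNorm _).trans (mul_le_mul_of_nonneg_left n1 (norm_nonneg _))
        · rw [norm_smul]
          exact mul_le_mul_of_nonneg_left n1 (norm_nonneg _)
    _ = L * δ := by rw [hL]; ring
    _ ≤ ε := by
        rw [hδ, mul_div_assoc', div_le_iff₀ (by positivity)]
        nlinarith

lemma eLp_bd {g : ℂ → ℂ} {B : ℝ} (hB : 0 ≤ B) (hq : 1 < q) (hb : ∀ z, ‖g z‖ ≤ B) {Q : Set ℂ}
    (hQ : MeasurableSet Q) (hQf : volume Q ≠ ⊤) (hs : ∀ z, z ∉ Q → g z = 0) :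
    (eLpNorm g (ENNReal.ofReal q) (volume.restrict S)).toReal ≤
      B * (volume Q).toReal ^ (1 / q) := by
  have h1 : eLpNorm g (ENNReal.ofReal q) (volume.restrict S) ≤
      eLpNorm (Q.indicator fun _ => B) (ENNReal.ofReal q) volume := by
    refine (eLpNorm_mono fun z => ?_).trans (eLpNorm_mono_measure _ Measure.restrict_le_self)
    by_cases hz : z ∈ Q
    · rw [indicator_of_mem hz, Real.norm_of_nonneg hB]
      exact hb z
    · rw [indicator_of_notMem hz, hs z hz, norm_zero, norm_zero]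
  refine ENNReal.toReal_le_of_le_ofReal (by positivity) (h1.trans ?_)
  rw [eLpNorm_indicator_const hQ (by rw [Ne, ENNReal.ofReal_eq_zero, not_le]; linarith)
    ENNReal.ofReal_ne_top, ENNReal.toReal_ofReal (by linarith), ENNReal.ofReal_mul hB,
    ← ENNReal.ofReal_rpow_of_nonneg ENNReal.toReal_nonneg (by positivity),
    ENNReal.ofReal_toReal hQf, ← ofReal_norm, Real.norm_of_nonneg hB]

/-- the functionals are integrals -/
theorem lam_fct (hO : Orb S N A q C) (hq : 1 < q) (φ : E →L[ℂ] ℂ) :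
    Fct fun g => φ (lam A q g) := by
  refine ⟨fun g g' r B B' hg hg' => ?_, fun c g r B hg => ?_, fun r => ?_⟩
  · rw [lam_add (bd_memLp hg) (bd_memLp hg'), map_add]
  · rw [lam_smul c (bd_memLp hg), map_smul, smul_eq_mul]
  · refine ⟨‖φ‖ * C, 1 / q, mul_nonneg (norm_nonneg _) hO.nonneg, by positivity,
      fun Q hQ hQr g hg hs => ?_⟩
    have hQf : volume Q ≠ ⊤ := ne_top_of_le_ne_top measure_ball_lt_top.ne (measure_mono hQr)
    refine (φ.le_opNorm _).trans ?_
    rw [mul_assoc]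
    refine mul_le_mul_of_nonneg_left ?_ (norm_nonneg _)
    refine (lam_norm hO hq (bd_memLp hg)).trans (mul_le_mul_of_nonneg_left ?_ hO.nonneg)
    have := eLp_bd (S := S) (q := q) zero_le_one hq hg.bd hQ hQf hs
    rwa [one_mul] at this

end

end Pool.Agent.N812.BA
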