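import Pool.Agent.N812.IS.Nu
import Pool.Agent.N812.WO.Pr

/-!
# The equation `c = η b + F c` for measurable matrices, pairs
-/

set_option autoImplicit false

namespace Pool.Agent.N812.BA

open MeasureTheory Set Metric Filter Topology
open Pool.Agent.R276.CP Pool.Agent.R276.CP.Fat
open Pool.Agent.N812.IS
open Pool.Agent.N812.WO (kr mem_kr ker_lim Rn inverseS_meas sm_app ind_meas ind_le)
open scoped InnerProductSpace ENNReal NNReal

/-- the matrix, cut off where it is not summable -/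
noncomputable def Gc (F : ℕ → ℕ → ℂ → ℂ) : ℂ → (l2 →L[ℂ] l2) :=
  {z | Xi F z ≠ ⊤}.indicator (Top F)

lemma Gc_meas {F : ℕ → ℕ → ℂ → ℂ} (hF : ∀ i j, Measurable (F i j)) : StronglyMeasurable (Gc F) := by
  have hSm : MeasurableSet {z | Xi F z ≠ ⊤} :=
    (measurableSet_eq_fun (Xi_meas hF) measurable_const).compl
  refine stronglyMeasurable_of_tendsto atTop (f := fun n => {z | Xi F z ≠ ⊤}.indicator (Tn F n))
    (fun n => (Tn_meas hF n).indicator hSm) (tendsto_pi_nhds.2 fun z => ?_)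
  unfold Gc
  by_cases hz : z ∈ {z | Xi F z ≠ ⊤}
  · simp only [indicator_of_mem hz]
    exact Tn_tendsto hz
  · simp only [indicator_of_notMem hz]
    exact tendsto_const_nhds

lemma Gc_compact (F : ℕ → ℕ → ℂ → ℂ) (z : ℂ) : IsCompactOperator (Gc F z) := by
  unfold Gc
  by_cases hz : z ∈ {z | Xi F z ≠ ⊤}
  · rw [indicator_of_mem hz]
    have h1 := (colsum_summable (cv_summable hz)).hasSum
    exact compact_of_sum (u := fun j => cv F z j) (v := fun j => innerSL ℂ (ee j)) h1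
  · rw [indicator_of_notMem hz]
    exact isCompactOperator_zero

/-- `1 - F(z)` -/
noncomputable def Dc (F : ℕ → ℕ → ℂ → ℂ) (z : ℂ) : l2 →L[ℂ] l2 := 1 - Gc F z

lemma Dc_meas {F : ℕ → ℕ → ℂ → ℂ} (hF : ∀ i j, Measurable (F i j)) : StronglyMeasurable (Dc F) :=
  stronglyMeasurable_const.sub (Gc_meas hF)

lemma Dc_eq (F : ℕ → ℕ → ℂ → ℂ) (z : ℂ) (x : l2) : Dc F z x = x - Gc F z x := rfl

lemma ker_of {F : ℕ → ℕ → ℂ → ℂ} {z : ℂ} (hz : ¬ IsUnit (Dc F z)) :
    ∃ j : ℕ, (kr (Dc F z)).starProjection (ee j) ≠ 0 := by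
  rcases (Gc_compact F z).hasEigenvalue_or_mem_resolventSet (μ := (1:ℂ)) one_ne_zero with h1 | h1
  · obtain ⟨v, hv⟩ := h1.exists_hasEigenvector
    have hv1 : Gc F z v = v := by
      have := hv.apply_eq_smul
      simpa using this
    have hvk : v ∈ kr (Dc F z) := by
      rw [mem_kr, Dc_eq, hv1, sub_self]
    by_contra hcon
    push Not at hcon
    apply hv.2
    have h2 : ∀ j, (v : ℕ → ℂ) j = 0 := by
      intro j
      rw [← inner_ee]
      have h3 := Submodule.starProjection_inner_eq_zero (K := kr (Dc F z)) (ee j) v hvk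
      rw [hcon j, sub_zero] at h3
      exact h3
    ext j
    exact h2 j
  · exfalso
    apply hz
    rw [spectrum.mem_resolventSet_iff, map_one] at h1
    exact h1

lemma ker_meas' {F : ℕ → ℕ → ℂ → ℂ} (hF : ∀ i j, Measurable (F i j)) (j : ℕ) :
    StronglyMeasurable fun z => (kr (Dc F z)).starProjection (ee j) := by
  refine stronglyMeasurable_of_tendsto atTop
    (f := fun (N : ℕ) z => Rn (Dc F z) N (ee j)) (fun N => ?_) ?_
  · have h1 : StronglyMeasurable fun z => (1 : l2 →L[ℂ] l2) + (N : ℂ) •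
        (ContinuousLinearMap.adjoint (Dc F z) * Dc F z) := by
      have h2 : StronglyMeasurable fun z => ContinuousLinearMap.adjoint (Dc F z) :=
        (ContinuousLinearMap.adjoint (𝕜 := ℂ) (E := l2) (F := l2)).continuous.comp_stronglyMeasurable
          (Dc_meas hF)
      have h3 : StronglyMeasurable fun z =>
          ContinuousLinearMap.adjoint (Dc F z) * Dc F z := h2.mul (Dc_meas hF)
      exact stronglyMeasurable_const.add (h3.const_smul (N : ℂ))
    exact sm_app (inverseS_meas h1) stronglyMeasurable_const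
  · rw [tendsto_pi_nhds]
    exact fun z => ker_lim _ _

/-- the pairs -/
structure Pair (F : ℕ → ℕ → ℂ → ℂ) (b : ℂ → ℕ → ℂ) (η : ℂ → ℂ) (c : ℂ → l2) : Prop where
  em : Measurable η
  eb : ∀ z, ‖η z‖ ≤ 1
  cm : StronglyMeasurable c
  eq : ∀ᵐ z : ℂ, ∀ i, ∃ s, HasSum (fun j => F i j z * (c z : ℕ → ℂ) j) s ∧
    (c z : ℕ → ℂ) i = η z * b z i + s

lemma Xi_ae {F : ℕ → ℕ → ℂ → ℂ} (hF : ∀ i j, Measurable (F i j))
    (hX : ∀ R : ℝ, ∫⁻ z in ball (0:ℂ) R, Xi F z < ⊤) : ∀ᵐ z : ℂ, Xi F z ≠ ⊤ :=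
  ae_of_balls fun _ => (ae_lt_top (Xi_meas hF) (hX _).ne).mono fun _ hz => hz.ne

lemma pair_of {F : ℕ → ℕ → ℂ → ℂ} (hF : ∀ i j, Measurable (F i j))
    (hX : ∀ R : ℝ, ∫⁻ z in ball (0:ℂ) R, Xi F z < ⊤) {b : ℂ → ℕ → ℂ}
    (hba : ∀ᵐ z : ℂ, nn (b z) ≠ ⊤) {η : ℂ → ℂ} {c : ℂ → l2} (hη : Measurable η)
    (hη1 : ∀ z, ‖η z‖ ≤ 1) (hc : StronglyMeasurable c)
    (h : ∀ z, Dc F z (c z) = η z • vec (b z)) : Pair F b η c := by
  refine ⟨hη, hη1, hc, ?_⟩
  filter_upwards [Xi_ae hF hX, hba] with z h1 h2 i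
  have h4 : Gc F z = Top F z := indicator_of_mem (show z ∈ {z | Xi F z ≠ ⊤} from h1) _
  refine ⟨_, Top_apply h1 (c z) i, ?_⟩
  have h5 := h z
  rw [Dc_eq, h4] at h5
  have h7 := congrArg (fun x : l2 => (x : ℕ → ℂ) i) h5
  simp only at h7
  rw [lp.coeFn_sub, lp.coeFn_smul, Pi.sub_apply, Pi.smul_apply, vec_apply (nn_summable h2),
    smul_eq_mul] at h7
  rw [← h7]
  ring

theorem pair_ex {F : ℕ → ℕ → ℂ → ℂ} (hF : ∀ i j, Measurable (F i j))
    (hX : ∀ R : ℝ, ∫⁻ z in ball (0:ℂ) R, Xi F z < ⊤) {b : ℂ → ℕ → ℂ}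
    (hb : ∀ j, Measurable fun z => b z j) (hba : ∀ᵐ z : ℂ, nn (b z) ≠ ⊤) {A : Set ℂ}
    (hA : MeasurableSet A) (hA0 : volume A ≠ 0) :
    ∃ (η : ℂ → ℂ) (c : ℂ → l2), Pair F b η c ∧
      ¬ ∀ᵐ z ∂(volume.restrict A), η z = 0 ∧ c z = 0 := by
  have hI : StronglyMeasurable fun z => Ring.inverse (Dc F z) := inverseS_meas (Dc_meas hF)
  have hun : MeasurableSet {z | IsUnit (Dc F z)} := by
    borelize (l2 →L[ℂ] l2)
    exact (Dc_meas hF).measurable Units.isOpen.measurableSet
  by_cases hm : volume (A ∩ {z | IsUnit (Dc F z)}) = 0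
  · by_contra hcon
    push Not at hcon
    have h1 : ∀ j : ℕ, ∀ᵐ z ∂(volume.restrict A), (kr (Dc F z)).starProjection (ee j) = 0 := by
      intro j
      have hp : Pair F b (fun _ => 0) (fun z => (kr (Dc F z)).starProjection (ee j)) := by
        refine pair_of hF hX hba measurable_const (fun z => by simp) (ker_meas' hF j) fun z => ?_
        have h2 : (kr (Dc F z)).starProjection (ee j) ∈ kr (Dc F z) :=
          Submodule.starProjection_apply_mem _ _
        rw [mem_kr] at h2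
        rw [h2, zero_smul]
      filter_upwards [hcon _ _ hp] with z hz
      exact hz.2
    apply hA0
    have h2 : ∀ᵐ z ∂(volume.restrict A), False := by
      rw [ae_restrict_iff' hA]
      have h3 := (ae_restrict_iff' hA).1 (ae_all_iff.2 h1)
      have h4 := measure_eq_zero_iff_ae_notMem.1 hm
      filter_upwards [h3, h4] with z h5 h6 hz
      have h7 : ¬ IsUnit (Dc F z) := fun h' => h6 ⟨hz, h'⟩
      obtain ⟨j, hj⟩ := ker_of h7
      exact hj (h5 hz j)
    have h3 : ((volume : Measure ℂ).restrict A) univ = 0 := by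
      rw [ae_iff] at h2
      simpa using h2
    rwa [Measure.restrict_apply_univ] at h3
  · set P : Set ℂ := {z | IsUnit (Dc F z)} with hP
    refine ⟨P.indicator fun _ => 1, P.indicator fun z => Ring.inverse (Dc F z) (vec (b z)),
      pair_of hF hX hba (ind_meas hun) (fun z => by exact_mod_cast ind_le P z)
        ((sm_app hI (vec_meas hb)).indicator hun) fun z => ?_, fun hcon => ?_⟩
    · by_cases hz : z ∈ P
      · rw [indicator_of_mem hz, indicator_of_mem hz, one_smul]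
        have h1 := Ring.mul_inverse_cancel _ hz
        exact congrArg (fun R : l2 →L[ℂ] l2 => R (vec (b z))) h1
      · rw [indicator_of_notMem hz, indicator_of_notMem hz, zero_smul, map_zero]
    · apply hm
      rw [ae_restrict_iff' hA] at hcon
      rw [measure_eq_zero_iff_ae_notMem]
      filter_upwards [hcon] with z hz hz2
      have := (hz hz2.1).1
      rw [indicator_of_mem hz2.2] at this
      exact one_ne_zero this

end Pool.Agent.N812.BA
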