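import Pool.Agent.N812.BA.De

/-!
# Nuclear perturbations, unbalanced representations
-/

set_option autoImplicit false

namespace Pool.Agent.N812.BA

open MeasureTheory Set Metric Filter Topology
open Pool.Agent.R276.CP
open Pool.Agent.R277.SP (FC cK zz cK_apply ad ad_apply ad_apply2 ev ev_apply adΦ adΦ_apply)
open Pool.Agent.N812.IS
open Pool.Agent.Y271.RO (Bd)
open Pool.Agent.Y283.NK (HasHyp)
open scoped InnerProductSpace ENNReal NNReal

section

variable {E ι : Type} [NormedAddCommGroup E] [NormedSpace ℂ E] {N : E →L[ℂ] E}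
    {R : (ℂ → ℂ) → (E →L[ℂ] E)} {φ : ι → (E →L[ℂ] ℂ)} {f : ι → E → ℂ → ℂ}

theorem pert_of (hC : Cal N R φ f) {C : ℝ} (hC0 : 0 ≤ C)
    (hW : ∀ i x R, Wk (f i x) R (‖φ i‖ * (C * ‖x‖))) {u : ℕ → E} {v : ℕ → ι} {S S' : ℝ}
    {κ κ' : ℕ → ℕ} (hS : 0 < S) (hS' : 0 < S') (hu : ∀ j, ‖u j‖ ≤ S * (1 / 2 : ℝ) ^ κ j)
    (hv : ∀ j, ‖φ (v j)‖ ≤ S' * (1 / 2 : ℝ) ^ κ' j) (hκ : Summable (wt κ))
    (hκ' : Summable (wt κ')) {K : E →L[ℂ] E}
    (hK : HasSum (fun j => (φ (v j)).smulRight (u j)) K) : Pert φ f u v K := by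
  have hb := tails (a := fun (i : ι) z j => f i (u j) z) (fun y j => hC.meas _ _)
    (w := fun i => ‖φ i‖) (fun y => norm_nonneg _) hκ (D := C * S) (by positivity)
    (fun y R j => (hW y (u j) R).mono (by
      refine mul_le_mul_of_nonneg_left ?_ (norm_nonneg _)
      rw [mul_assoc]
      exact mul_le_mul_of_nonneg_left (hu j) hC0))
  have hc := tails (a := fun (x : E) z j => f (v j) x z) (fun y j => hC.meas _ _)
    (w := fun y => ‖y‖) (fun y => norm_nonneg _) hκ' (D := C * S') (by positivity)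
    (fun x R j => (hW (v j) x R).mono (by
      calc ‖φ (v j)‖ * (C * ‖x‖) = ‖x‖ * (C * ‖φ (v j)‖) := by ring
        _ ≤ ‖x‖ * (C * (S' * (1 / 2 : ℝ) ^ κ' j)) := by
            gcongr
            exact hv j
        _ = _ := by ring))
  refine ⟨fun x => ?_, fun R => ?_, fun x R => ?_, hb.1, hb.2⟩
  · have h1 := hK.mapL (ContinuousLinearMap.apply ℂ E x)
    exact h1.tendsto_sum_nat
  · -- the matrix
    set D : ℝ := C * (S * S') with hD
    have hD0 : 0 ≤ D := by positivity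
    have hv' := vb_nonneg R
    have h1 : ∀ i j, ∫⁻ z in ball (0:ℂ) R, ENNReal.ofReal (ps ‖f (v i) (u j) z‖) ≤
        ENNReal.ofReal ((4 * D ^ 2 + vb R) * (wt κ' i * wt κ j)) := by
      intro i j
      have h2 : Wk (f (v i) (u j)) R (D * (1 / 2 : ℝ) ^ (κ' i + κ j)) := by
        refine (hW (v i) (u j) R).mono ?_
        calc ‖φ (v i)‖ * (C * ‖u j‖) ≤ (S' * (1 / 2 : ℝ) ^ κ' i) * (C * (S * (1 / 2 : ℝ) ^ κ j)) := by
              gcongr
              · exact hv i
              · exact hu j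
          _ = D * (1 / 2 : ℝ) ^ (κ' i + κ j) := by
              rw [hD, pow_add]
              ring
      refine (psi_int (hC.meas _ _) hD0 h2).trans (ENNReal.ofReal_le_ofReal ?_)
      refine mul_le_mul_of_nonneg_left ?_ (by positivity)
      unfold wt
      rw [pow_add]
      push_cast
      have h3 : (0 : ℝ) ≤ (1 / 4 : ℝ) ^ κ' i * (1 / 4 : ℝ) ^ κ j := by positivity
      have h4 : (0 : ℝ) ≤ (κ' i : ℝ) * κ j := by positivity
      have h5 : (1 / 4 : ℝ) ^ κ' i * (1 + (κ' i : ℝ)) * ((1 / 4 : ℝ) ^ κ j * (1 + κ j)) =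
        (1 / 4 : ℝ) ^ κ' i * (1 / 4 : ℝ) ^ κ j * (1 + (κ' i + κ j)) +
          (1 / 4 : ℝ) ^ κ' i * (1 / 4 : ℝ) ^ κ j * (κ' i * κ j) := by ring
      have h6 := mul_nonneg h3 h4
      linarith
    have hm : ∀ i j, Measurable fun z => ENNReal.ofReal (ps ‖f (v i) (u j) z‖) := fun i j =>
      (ps_meas.comp (hC.meas _ _).norm).ennreal_ofReal
    unfold Xi
    rw [lintegral_tsum fun j => (Measurable.tsum fun i => hm i j).aemeasurable]
    calc ∑' j, ∫⁻ z in ball (0:ℂ) R, ∑' i, ENNReal.ofReal (ps ‖f (v i) (u j) z‖)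
        = ∑' j, ∑' i, ∫⁻ z in ball (0:ℂ) R, ENNReal.ofReal (ps ‖f (v i) (u j) z‖) :=
          tsum_congr fun j => lintegral_tsum fun i => (hm i j).aemeasurable
      _ ≤ ∑' j, ∑' i, ENNReal.ofReal (4 * D ^ 2 + vb R) *
            (ENNReal.ofReal (wt κ' i) * ENNReal.ofReal (wt κ j)) := by
          refine ENNReal.tsum_le_tsum fun j => ENNReal.tsum_le_tsum fun i => ?_
          refine (h1 i j).trans (le_of_eq ?_)
          rw [ENNReal.ofReal_mul (by positivity), ENNReal.ofReal_mul (wt_nonneg κ' i)]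
      _ = ENNReal.ofReal (4 * D ^ 2 + vb R) *
            ((∑' i, ENNReal.ofReal (wt κ' i)) * ∑' j, ENNReal.ofReal (wt κ j)) := by
          simp_rw [ENNReal.tsum_mul_left, ENNReal.tsum_mul_right, ENNReal.tsum_mul_left]
      _ < ⊤ := by
          have h7 : ∀ κ : ℕ → ℕ, Summable (wt κ) → ∑' i, ENNReal.ofReal (wt κ i) < ⊤ := by
            intro κ hκ
            rw [← ENNReal.ofReal_tsum_of_nonneg (wt_nonneg κ) hκ]
            exact ENNReal.ofReal_lt_top
          exact ENNReal.mul_lt_top ENNReal.ofReal_lt_top (ENNReal.mul_lt_top (h7 _ hκ') (h7 _ hκ))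
  · obtain ⟨C', -, h⟩ := hc.1 R
    exact (h x).trans_lt ENNReal.ofReal_lt_top

end

section

variable {X : Type} [NormedAddCommGroup X] [NormedSpace ℂ X]

/-- `K = ∑ v j ⊗ u j`, `∑ (‖v j‖ ‖u j‖)^p < ∞` -/
def PNuc (p : ℝ) (K : X →L[ℂ] X) : Prop :=
  ∃ (u : ℕ → X) (v : ℕ → (X →L[ℂ] ℂ)), (Summable fun j => (‖v j‖ * ‖u j‖) ^ p) ∧
    ∀ x, HasSum (fun j => v j x • u j) (K x)

/-- powers -/
lemma log_pow {s : ℕ → ℝ} (hs : ∀ j, 0 ≤ s j) {p β : ℝ} (hp : 0 < p) (hβ : 0 < β) (hβ1 : β ≤ 1)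
    (hpβ : p < 2 * β) (h : Summable fun j => s j ^ p) :
    Summable fun j => (s j ^ β) ^ 2 * (1 + |Real.log (s j ^ β)|) := by
  refine Summable.of_nonneg_of_le (fun j => by positivity) (fun j => ?_) (pow_log hs hp hpβ h)
  have h1 : (s j ^ β) ^ 2 = s j ^ (2 * β) := by
    rw [← Real.rpow_natCast, ← Real.rpow_mul (hs j)]
    congr 1
    push_cast
    ring
  rw [h1]
  refine mul_le_mul_of_nonneg_left ?_ (Real.rpow_nonneg (hs j) _)
  rcases (hs j).eq_or_lt with h0 | h0
  · rw [← h0, Real.zero_rpow hβ.ne']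
  · rw [Real.log_rpow h0, abs_mul, abs_of_pos hβ]
    have := mul_le_mul_of_nonneg_right hβ1 (abs_nonneg (Real.log (s j)))
    linarith

/-- unbalanced representations -/
theorem PNuc.unb [CompleteSpace X] {p q : ℝ} (hp : 0 < p) (hq : 2 ≤ q) (hpq : p * (3 - 2 / q) < 2)
    {K : X →L[ℂ] X} (h : PNuc p K) :
    ∃ (u : ℕ → X) (v : ℕ → (X →L[ℂ] ℂ)) (S S' : ℝ) (κ κ' : ℕ → ℕ), 0 < S ∧ 0 < S' ∧
      (∀ j, ‖u j‖ ≤ S * (1 / 2 : ℝ) ^ κ j) ∧ (∀ j, ‖v j‖ ≤ S' * (1 / 2 : ℝ) ^ κ' j) ∧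
      Summable (wt κ) ∧ Summable (wt κ') ∧ (Summable fun j => ‖v j‖ ^ (q / (q - 1))) ∧
      HasSum (fun j => (v j).smulRight (u j)) K := by
  obtain ⟨u, v, h1, h2⟩ := h
  have hq0 : 0 < q - 1 := by linarith
  have hq2 : 0 < q := by linarith
  set s : ℕ → ℝ := fun j => ‖v j‖ * ‖u j‖ with hs
  have hs0 : ∀ j, 0 ≤ s j := fun j => by positivity
  have hp1 : p < 1 := by
    have h3 : 2 / q ≤ 1 := by
      rw [div_le_one hq2]
      exact hq
    nlinarith
  -- the exponent
  obtain ⟨α, hα1, hα2⟩ : ∃ α : ℝ, p * ((q - 1) / q) < α ∧ α < 1 - p / 2 := by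
    refine exists_between ?_
    have h3 : p * ((q - 1) / q) = p - p * (2 / q) / 2 := by
      field_simp
    rw [h3]
    linarith
  have hα0 : 0 < α := lt_trans (by positivity) hα1
  have hαlt : α < 1 := by linarith
  have hpα : p < 2 * α := by
    have h3 : 1 / 2 ≤ (q - 1) / q := by
      rw [div_le_div_iff₀ (by norm_num) hq2]
      linarith
    nlinarith
  have hαq : p < α * (q / (q - 1)) := by
    rw [← mul_div_assoc, lt_div_iff₀ hq0]
    rw [← mul_div_assoc, div_lt_iff₀ hq2] at hα1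
    exact hα1
  obtain ⟨S, κ, hS, hκ1, hκ2⟩ := kap (t := fun j => s j ^ (1 - α))
    (fun j => Real.rpow_nonneg (hs0 j) _)
    (log_pow hs0 hp (by linarith) (by linarith) (by linarith) h1)
  obtain ⟨S', κ', hS', hκ1', hκ2'⟩ := kap (t := fun j => s j ^ α)
    (fun j => Real.rpow_nonneg (hs0 j) _) (log_pow hs0 hp hα0 hαlt.le hpα h1)
  -- the vectors
  have hbal : ∀ j, ∃ (u' : X) (v' : X →L[ℂ] ℂ), ‖u'‖ ≤ s j ^ (1 - α) ∧ ‖v'‖ ≤ s j ^ α ∧
      v'.smulRight u' = (v j).smulRight (u j) := by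
    intro j
    by_cases h0 : s j = 0
    · refine ⟨0, 0, by rw [norm_zero]; exact Real.rpow_nonneg (hs0 j) _,
        by rw [norm_zero]; exact Real.rpow_nonneg (hs0 j) _, ?_⟩
      rcases mul_eq_zero.1 h0 with h3 | h3
      · rw [norm_eq_zero.1 h3]
        ext x
        simp
      · rw [norm_eq_zero.1 h3]
        ext x
        simp
    · have hvn : 0 < ‖v j‖ := (norm_nonneg _).lt_of_ne fun h => h0 (by rw [hs]; simp only; rw [← h, zero_mul])
      have hun : 0 < ‖u j‖ := (norm_nonneg _).lt_of_ne fun h => h0 (by rw [hs]; simp only; rw [← h, mul_zero])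
      have hsp : 0 < s j := mul_pos hvn hun
      set t : ℝ := s j ^ (1 - α) with ht
      have htp : 0 < t := Real.rpow_pos_of_pos hsp _
      have htt : t * s j ^ α = s j := by
        rw [ht, ← Real.rpow_add hsp, sub_add_cancel, Real.rpow_one]
      set β : ℝ := t / ‖u j‖ with hβ
      have hβ0 : 0 < β := by positivity
      refine ⟨(β : ℂ) • u j, ((β : ℂ)⁻¹) • v j, ?_, ?_, ?_⟩
      · rw [norm_smul, Complex.norm_real, Real.norm_of_nonneg hβ0.le, hβ,
          div_mul_cancel₀ _ hun.ne']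
      · rw [norm_smul, norm_inv, Complex.norm_real, Real.norm_of_nonneg hβ0.le, hβ, inv_div,
          div_mul_eq_mul_div, div_le_iff₀ htp, mul_comm, mul_comm _ t, htt]
      · ext x
        have : (β : ℂ) ≠ 0 := by exact_mod_cast hβ0.ne'
        simp only [ContinuousLinearMap.smulRight_apply, smul_apply, smul_smul, smul_eq_mul]
        congr 1
        field_simp
  choose u' v' hu' hv' huv using hbal
  have hl : ∀ β : ℝ, p < β → Summable fun j => s j ^ β := by
    intro β hβ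
    refine Summable.of_nonneg_of_le (fun j => Real.rpow_nonneg (hs0 j) _) (fun j => ?_)
      (pow_log hs0 hp hβ h1)
    have h3 := Real.rpow_nonneg (hs0 j) β
    have h4 := abs_nonneg (Real.log (s j))
    nlinarith
  refine ⟨u', v', S, S', κ, κ', hS, hS', fun j => (hu' j).trans (hκ1 j),
    fun j => (hv' j).trans (hκ1' j), hκ2, hκ2', ?_, ?_⟩
  · refine Summable.of_nonneg_of_le (fun j => by positivity) (fun j => ?_) (hl _ hαq)
    rw [Real.rpow_mul (hs0 j)]
    exact Real.rpow_le_rpow (norm_nonneg _) (hv' j) (by positivity)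
  have hsum : Summable fun j => (v' j).smulRight (u' j) := by
    have h3 : Summable fun j => ‖v j‖ * ‖u j‖ := by
      refine (hl 1 hp1).congr fun j => ?_
      rw [Real.rpow_one]
    refine Summable.of_norm_bounded h3 fun j => ?_
    rw [huv j, ContinuousLinearMap.norm_smulRight_apply]
  have h4 : ∑' j, (v' j).smulRight (u' j) = K := by
    ext x
    have h5 := hsum.hasSum.mapL (ContinuousLinearMap.apply ℂ X x)
    refine (h5.unique ?_)
    refine (h2 x).congr_fun fun j => ?_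
    rw [ContinuousLinearMap.apply_apply, huv j]
    rfl
  rw [← h4]
  exact hsum.hasSum

/-- the adjoint -/
theorem PNuc.dual [CompleteSpace X] {p : ℝ} (hp : 0 < p) (hp1 : p < 1) {K : X →L[ℂ] X}
    (h : PNuc p K) : PNuc p (ad K) := by
  obtain ⟨u, v, h1, h2⟩ := h
  have hs0 : ∀ j, 0 ≤ ‖v j‖ * ‖u j‖ := fun j => by positivity
  have h3 : Summable fun j => ‖v j‖ * ‖u j‖ := by
    refine Summable.of_nonneg_of_le hs0 (fun j => ?_) (pow_log hs0 hp hp1 h1)
    have := abs_nonneg (Real.log (‖v j‖ * ‖u j‖))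
    rw [Real.rpow_one]
    nlinarith [hs0 j]
  have hsum : Summable fun j => (v j).smulRight (u j) := by
    refine Summable.of_norm_bounded h3 fun j => ?_
    rw [ContinuousLinearMap.norm_smulRight_apply]
  have h4 : ∑' j, (v j).smulRight (u j) = K := by
    ext x
    have h5 := hsum.hasSum.mapL (ContinuousLinearMap.apply ℂ X x)
    refine (h5.unique ?_)
    exact h2 x
  have hK : HasSum (fun j => (v j).smulRight (u j)) K := by
    rw [← h4]
    exact hsum.hasSum
  refine ⟨v, fun j => ev (u j), ?_, fun y => ?_⟩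
  · refine Summable.of_nonneg_of_le (fun j => by positivity) (fun j => ?_) h1
    refine Real.rpow_le_rpow (by positivity) ?_ hp.le
    rw [mul_comm]
    exact mul_le_mul_of_nonneg_left (ev_norm _) (norm_nonneg _)
  · have h5 := hK.mapL ((ContinuousLinearMap.compL ℂ X X ℂ) y)
    refine h5.congr_fun fun j => ?_
    ext x
    simp [mul_comm, ev_apply]

end

end Pool.Agent.N812.BA
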